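import Pool.Agent.V5LSS.Prime

/-!
# Hypergraph LSS ideals are prime above the positive matching decomposition number

For every field `k`, every hypergraph `H` whose edge set is a clutter and every
`d ≥ pmd(H) + 1` the ideal `L_H(d)` is prime.

Induction on a positive matching decomposition `E = M ⊔ E'`.  Use the last column of variables
`z_i = y_{i,d}` with the weights of the positive matching `M`, normalised to have sum `0` on the
members of `M`, and shifted.  The leading form of `f_A^{(d)}` is `f_A^{(d-1)}` for `A ∈ E'` and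
`∏_{i ∈ A} z_i + f_A^{(d-1)}` for `A ∈ M`.  The ideal of the leading forms is prime: by induction
`L_{E'}(d-1)` is prime, and the sets `A ∈ M` are disjoint, so one may add one element
`∏ z_i + h`, `h ∉ P`, at a time (`prime_sup`).  Hence `L_H(d)` is prime.
-/

namespace Pool.Agent.Results.MP_c79496_ag.PrimeAbovePmd

open RingTheory.Sequence Pool.Agent.V5LSS MvPolynomial

/-! ### Primality from the ideal of leading forms -/

section graded

variable {A : Type*} [CommRing A] {σ : Type*} [SetLike σ A] [AddSubgroupClass σ A]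
  (𝒜 : ℕ → σ) [GradedRing 𝒜]

lemma comp_mul_top {a b : ℕ} {x y : A} (hx : Low 𝒜 (a + 1) x) (hy : Low 𝒜 (b + 1) y) :
    comp 𝒜 (a + b) (x * y) = comp 𝒜 a x * comp 𝒜 b y := by
  apply lead_mul_comp 𝒜 _ hx
  refine ⟨comp_mem 𝒜 b y, ?_⟩
  intro n hn
  rw [comp_sub, comp_of_mem 𝒜 (comp_mem 𝒜 b y)]
  rcases Nat.eq_or_lt_of_le hn with rfl | hn
  · rw [if_pos rfl, sub_self]
  · rw [if_neg (by omega), hy n hn, sub_zero]

theorem prime_of_lead {ι : Type*} (e : ι → ℕ) (F f : ι → A) (L : List ι)
    (hL : ∀ i ∈ L, Lead 𝒜 (e i) (F i) (f i)) (hreg : IsWeaklyRegular A (L.map F))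
    (hprime : (Ideal.ofList (L.map F)).IsPrime) : (Ideal.ofList (L.map f)).IsPrime := by
  obtain ⟨-, h2, h3⟩ := degenerate 𝒜 e F f L hL hreg
  have h1mem : (1 : A) ∈ 𝒜 0 := SetLike.GradedOne.one_mem
  refine Ideal.IsPrime.mk ?_ ?_
  · intro htop
    have h1 : (1 : A) ∈ Ideal.ofList (L.map f) := by rw [htop]; exact Submodule.mem_top
    have := h2 0 1 h1 (low_of_mem 𝒜 h1mem)
    rw [comp_of_mem 𝒜 h1mem, if_pos rfl] at this
    exact hprime.ne_top ((Ideal.eq_top_iff_one _).mpr this)
  · have key : ∀ N a b x y, a + b = N → Low 𝒜 a x → Low 𝒜 b y → x * y ∈ Ideal.ofList (L.map f) →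
        x ∈ Ideal.ofList (L.map f) ∨ y ∈ Ideal.ofList (L.map f) := by
      intro N
      induction N using Nat.strong_induction_on with
      | _ N ih =>
        intro a b x y hab hx hy hxy
        cases a with
        | zero => left; rw [low_zero_iff 𝒜 hx]; exact Submodule.zero_mem _
        | succ a =>
          cases b with
          | zero => right; rw [low_zero_iff 𝒜 hy]; exact Submodule.zero_mem _
          | succ b =>
            have hlow : Low 𝒜 (a + b + 1) (x * y) := by
              have := low_mul 𝒜 hx hy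
              rwa [← add_assoc] at this
            have h4 := h2 (a + b) (x * y) hxy hlow
            rw [comp_mul_top 𝒜 hx hy] at h4
            rcases hprime.mem_or_mem h4 with h5 | h5
            · obtain ⟨w, hw, hwl, hwc⟩ := h3 a _ h5
              rw [comp_of_mem 𝒜 (comp_mem 𝒜 a x), if_pos rfl] at hwc
              have h6 : (x - w) * y ∈ Ideal.ofList (L.map f) := by
                rw [sub_mul]
                exact Submodule.sub_mem _ hxy (Ideal.mul_mem_right _ _ hw)
              have h7 : Low 𝒜 a (x - w) := by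
                intro n hn
                rcases Nat.eq_or_lt_of_le hn with rfl | hn
                · rw [comp_sub, hwc, sub_self]
                · rw [comp_sub, hx n hn, hwl n hn, sub_self]
              rcases ih (a + (b + 1)) (by omega) a (b + 1) (x - w) y rfl h7 hy h6 with h8 | h8
              · left
                have := Submodule.add_mem _ h8 hw
                rwa [sub_add_cancel] at this
              · right; exact h8
            · obtain ⟨w, hw, hwl, hwc⟩ := h3 b _ h5
              rw [comp_of_mem 𝒜 (comp_mem 𝒜 b y), if_pos rfl] at hwc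
              have h6 : x * (y - w) ∈ Ideal.ofList (L.map f) := by
                rw [mul_sub]
                exact Submodule.sub_mem _ hxy (Ideal.mul_mem_left _ _ hw)
              have h7 : Low 𝒜 b (y - w) := by
                intro n hn
                rcases Nat.eq_or_lt_of_le hn with rfl | hn
                · rw [comp_sub, hwc, sub_self]
                · rw [comp_sub, hy n hn, hwl n hn, sub_self]
              rcases ih (a + 1 + b) (by omega) (a + 1) b x (y - w) rfl hx h7 h6 with h8 | h8
              · left; exact h8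
              · right
                have := Submodule.add_mem _ h8 hw
                rwa [sub_add_cancel] at this
    intro x y hxy
    obtain ⟨a, ha⟩ := exists_low 𝒜 x
    obtain ⟨b, hb⟩ := exists_low 𝒜 y
    exact key _ a b x y rfl ha hb hxy

end graded

/-! ### The leading forms -/

section lss

attribute [local instance] MvPolynomial.weightedGradedAlgebra

variable {k : Type*} [Field k] {n : ℕ}

/-- the product of the variables of the last column -/
noncomputable def last (k : Type*) [Field k] (n d : ℕ) (A : Finset (Fin n)) :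
    MvPolynomial (Fin n × Fin (d + 1)) k := ∏ i ∈ A, X (i, Fin.last d)

/-- killing the vertices outside `A` and the last column -/
noncomputable def rho' (k : Type*) [Field k] (n d : ℕ) (A : Finset (Fin n)) :
    MvPolynomial (Fin n × Fin (d + 1)) k →+* MvPolynomial (Fin n × Fin (d + 1)) k :=
  eval₂Hom C (fun p => if p.1 ∈ A ∧ p.2 ≠ Fin.last d then X p else 0)

lemma rho'_lead_self (d : ℕ) (A : Finset (Fin n)) : rho' k n d A (lead k n d A) = lead k n d A := by
  unfold rho' lead
  rw [map_sum]
  apply Finset.sum_congr rfl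
  intro j _
  rw [map_prod]
  apply Finset.prod_congr rfl
  intro i hi
  rw [eval₂Hom_X', if_pos ⟨hi, (Fin.castSucc_lt_last _).ne⟩]

lemma rho'_lead_other (d : ℕ) (A B : Finset (Fin n)) (h : ¬ B ⊆ A) :
    rho' k n d A (lead k n d B) = 0 := by
  unfold rho' lead
  rw [map_sum]
  apply Finset.sum_eq_zero
  intro j _
  rw [map_prod]
  obtain ⟨i, hiB, hiA⟩ := Finset.not_subset.mp h
  apply Finset.prod_eq_zero hiB
  rw [eval₂Hom_X', if_neg (fun hc => hiA hc.1)]

lemma rho'_last (d : ℕ) (A B : Finset (Fin n)) (hB : B.Nonempty) :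
    rho' k n d A (last k n d B) = 0 := by
  unfold rho' last
  rw [map_prod]
  obtain ⟨i, hi⟩ := hB
  apply Finset.prod_eq_zero hi
  rw [eval₂Hom_X', if_neg (fun hc => hc.2 rfl)]

lemma lead_ne_zero (d : ℕ) (hd : 1 ≤ d) (A : Finset (Fin n)) (hA : A.Nonempty) :
    lead k n d A ≠ 0 := by
  rw [← ringEquiv_C]
  intro h
  rw [map_eq_zero_iff _ (ringEquiv k n d).injective, map_eq_zero_iff _ (C_injective _ _)] at h
  exact gen_ne_zero d hd A hA h

lemma lead_supp (d : ℕ) (A B : Finset (Fin n)) :
    lead k n d B ∈ supported k (((A.image (fun i => (i, Fin.last d)) :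
      Finset (Fin n × Fin (d + 1))) : Set (Fin n × Fin (d + 1)))ᶜ) := by
  unfold lead
  apply Subalgebra.sum_mem
  intro j _
  apply Subalgebra.prod_mem
  intro i _
  rw [X_mem_supported]
  simp only [Set.mem_compl_iff, Finset.mem_coe, Finset.mem_image, Prod.mk.injEq, not_exists,
    not_and]
  intro a _ _ h
  exact (Fin.castSucc_lt_last j).ne h.symm

lemma last_supp (d : ℕ) (A B : Finset (Fin n)) (hAB : Disjoint A B) :
    last k n d B ∈ supported k (((A.image (fun i => (i, Fin.last d)) :
      Finset (Fin n × Fin (d + 1))) : Set (Fin n × Fin (d + 1)))ᶜ) := by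
  unfold last
  apply Subalgebra.prod_mem
  intro i hi
  rw [X_mem_supported]
  simp only [Set.mem_compl_iff, Finset.mem_coe, Finset.mem_image, Prod.mk.injEq, and_true,
    not_exists, not_and]
  rintro a ha rfl
  exact Finset.disjoint_left.mp hAB ha hi

/-- adding the members of the matching one at a time -/
theorem add_matching (d : ℕ) (hd : 1 ≤ d) (Ls Ms : List (Finset (Fin n)))
    (hne : ∀ A ∈ Ls ++ Ms, A.Nonempty)
    (hcl : ∀ A ∈ Ms, ∀ B ∈ Ls, ¬ B ⊆ A)
    (hcl' : Ms.Pairwise (fun A B => Disjoint A B))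
    (hreg : IsWeaklyRegular (MvPolynomial (Fin n × Fin (d + 1)) k) (Ls.map (lead k n d)))
    (hpr : (Ideal.ofList (Ls.map (lead k n d))).IsPrime) :
    IsWeaklyRegular (MvPolynomial (Fin n × Fin (d + 1)) k)
      (Ls.map (lead k n d) ++ Ms.map (fun A => last k n d A + lead k n d A)) ∧
    (Ideal.ofList (Ls.map (lead k n d) ++ Ms.map (fun A => last k n d A + lead k n d A))).IsPrime := by
  classical
  induction Ms using List.reverseRecOn with
  | nil => simpa using ⟨hreg, hpr⟩
  | append_singleton Ms A ih =>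
    have hpw := List.pairwise_append.mp hcl'
    obtain ⟨ih1, ih2⟩ := ih (fun B hB => hne B (by
        rw [List.mem_append] at hB ⊢
        rcases hB with h | h
        · left; exact h
        · right; simp [h]))
      (fun B hB => hcl B (by simp [hB])) hpw.1
    rw [List.map_append, List.map_cons, List.map_nil, ← List.append_assoc]
    set W := Ls.map (lead k n d) ++ Ms.map (fun A => last k n d A + lead k n d A) with hW
    have hA : A.Nonempty := hne A (by simp)
    have hdisj : ∀ B ∈ Ms, Disjoint A B := fun B hB => (hpw.2.2 B hB A (by simp)).symm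
    -- rho' kills W
    have hker : Ideal.ofList W ≤ RingHom.ker (rho' k n d A) := by
      rw [Ideal.span_le]
      intro g hg
      have hg' : g ∈ W := hg
      rw [hW, List.mem_append, List.mem_map, List.mem_map] at hg'
      show rho' k n d A g = 0
      rcases hg' with ⟨B, hB, rfl⟩ | ⟨B, hB, rfl⟩
      · exact rho'_lead_other d A B (hcl A (by simp) B hB)
      · have hBne : B.Nonempty := hne B (by simp [hB])
        rw [map_add, rho'_last d A B hBne, zero_add]
        apply rho'_lead_other d A B
        intro hBA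
        obtain ⟨i, hi⟩ := hBne
        exact Finset.disjoint_left.mp (hdisj B hB) (hBA hi) hi
    have hlead : lead k n d A ∉ Ideal.ofList W := by
      intro h
      have := hker h
      rw [RingHom.mem_ker, rho'_lead_self] at this
      exact lead_ne_zero d hd A hA this
    have htri : last k n d A + lead k n d A ∉ Ideal.ofList W := by
      intro h
      have := hker h
      rw [RingHom.mem_ker, map_add, rho'_last d A A hA, zero_add, rho'_lead_self] at this
      exact lead_ne_zero d hd A hA this
    refine ⟨?_, ?_⟩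
    · rw [reg_concat]
      refine ⟨ih1, ?_⟩
      intro x hx
      exact (ih2.mem_or_mem hx).resolve_left htri
    · rw [Ideal.ofList_append, Ideal.ofList_singleton]
      have hprod : last k n d A = ∏ z ∈ A.image (fun i => (i, Fin.last d)), X z := by
        unfold last
        rw [Finset.prod_image]
        intro a _ b _ hab
        exact (Prod.mk.inj hab).1
      rw [hprod]
      apply prime_sup (A.image (fun i => (i, Fin.last d))) {r | r ∈ W} _ ih2
        (hA.image _) _ (lead_supp d A A) hlead
      intro g hg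
      have hg' : g ∈ W := hg
      rw [hW, List.mem_append, List.mem_map, List.mem_map] at hg'
      rcases hg' with ⟨B, hB, rfl⟩ | ⟨B, hB, rfl⟩
      · exact lead_supp d A B
      · exact Subalgebra.add_mem _ (last_supp d A B (hdisj B hB)) (lead_supp d A B)


omit [Field k] in
lemma prime_C {R : Type*} [CommRing R] (τ : Type*) (I : Ideal R) (hI : I.IsPrime) :
    (I.map (C : R →+* MvPolynomial τ R)).IsPrime := by
  have h1 : IsDomain (R ⧸ I) := Ideal.Quotient.isDomain _
  have h2 : IsDomain (MvPolynomial τ R ⧸ I.map (C : R →+* MvPolynomial τ R)) :=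
    (MvPolynomial.quotientEquivQuotientMvPolynomial (σ := τ) I).symm.injective.isDomain
      (MvPolynomial.quotientEquivQuotientMvPolynomial (σ := τ) I).symm.toRingEquiv.toRingHom
  exact (Ideal.Quotient.isDomain_iff_prime _).mp h2

/-- passing to the leading forms `f_A^{(d)}` inside `S(d+1)` -/
theorem transport (d : ℕ) (Ls : List (Finset (Fin n)))
    (hreg : IsWeaklyRegular (MvPolynomial (Fin n × Fin d) k) (Ls.map (gen k n d)))
    (hpr : (Ideal.ofList (Ls.map (gen k n d))).IsPrime) :
    IsWeaklyRegular (MvPolynomial (Fin n × Fin (d + 1)) k) (Ls.map (lead k n d)) ∧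
    (Ideal.ofList (Ls.map (lead k n d))).IsPrime := by
  have h3 : ((⇑(ringEquiv k n d) ∘ ⇑C) ∘ gen k n d) = lead k n d := by
    funext A
    exact ringEquiv_C d A
  refine ⟨?_, ?_⟩
  · have h2 := reg_equiv (ringEquiv k n d) _ (reg_C (Fin n) _ hreg)
    rw [List.map_map, List.map_map, h3] at h2
    exact h2
  · have h1 : ((Ideal.ofList (Ls.map (gen k n d))).map
        (C : _ →+* MvPolynomial (Fin n) (MvPolynomial (Fin n × Fin d) k))).IsPrime :=
      prime_C (Fin n) _ hpr
    have h4 : ((Ideal.ofList (Ls.map (gen k n d))).map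
        (C : _ →+* MvPolynomial (Fin n) (MvPolynomial (Fin n × Fin d) k))).map
          (ringEquiv k n d : _ →+* MvPolynomial (Fin n × Fin (d + 1)) k)
        = Ideal.ofList (Ls.map (lead k n d)) := by
      rw [Ideal.map_ofList, Ideal.map_ofList, List.map_map, List.map_map, ← h3]
      rfl
    rw [← h4]
    exact Ideal.map_isPrime_of_equiv (ringEquiv k n d)

/-- the weights -/
def wtv (n d K : ℕ) (v : Fin n → ℤ) (p : Fin n × Fin (d + 1)) : ℕ :=
  if p.2 = Fin.last d then (K + v p.1).toNat else K

lemma lead_homog' (d K : ℕ) (v : Fin n → ℤ) (A : Finset (Fin n)) :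
    lead k n d A ∈ weightedHomogeneousSubmodule k (wtv n d K v) (A.card * K) := by
  rw [mem_weightedHomogeneousSubmodule]
  unfold lead
  apply IsWeightedHomogeneous.sum
  intro j _
  have := IsWeightedHomogeneous.prod (R := k) A (fun i => X (i, j.castSucc)) (fun _ => K)
    (w := wtv n d K v) (fun i _ => by
      have h := isWeightedHomogeneous_X k (wtv n d K v) (i, j.castSucc)
      have h1 : wtv n d K v (i, j.castSucc) = K := by
        unfold wtv
        rw [if_neg]
        exact (Fin.castSucc_lt_last _).ne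
      rwa [h1] at h)
  simpa using this

lemma last_homog' (d K : ℕ) (v : Fin n → ℤ) (A : Finset (Fin n)) :
    last k n d A ∈ weightedHomogeneousSubmodule k (wtv n d K v) (∑ i ∈ A, (K + v i).toNat) := by
  rw [mem_weightedHomogeneousSubmodule]
  unfold last
  exact IsWeightedHomogeneous.prod (R := k) A (fun i => X (i, Fin.last d))
    (fun i => (K + v i).toNat) (w := wtv n d K v) (fun i _ => by
      have h := isWeightedHomogeneous_X k (wtv n d K v) (i, Fin.last d)
      have h1 : wtv n d K v (i, Fin.last d) = (K + v i).toNat := by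
        unfold wtv
        rw [if_pos rfl]
      rwa [h1] at h)

lemma gen_succ (d : ℕ) (A : Finset (Fin n)) :
    gen k n (d + 1) A = last k n d A + lead k n d A := by
  unfold gen lead last
  rw [Fin.sum_univ_castSucc]
  ring

/-- the induction step -/
theorem step (d : ℕ) (hd : 1 ≤ d) (Ls Ms : List (Finset (Fin n))) (v : Fin n → ℤ)
    (hne : ∀ A ∈ Ls ++ Ms, A.Nonempty)
    (hcl : ∀ A ∈ Ms, ∀ B ∈ Ls, ¬ B ⊆ A)
    (hcl' : Ms.Pairwise (fun A B => Disjoint A B))
    (hvM : ∀ A ∈ Ms, ∑ i ∈ A, v i = 0)
    (hvL : ∀ A ∈ Ls, ∑ i ∈ A, v i < 0)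
    (hreg : IsWeaklyRegular (MvPolynomial (Fin n × Fin d) k) (Ls.map (gen k n d)))
    (hpr : (Ideal.ofList (Ls.map (gen k n d))).IsPrime) :
    IsWeaklyRegular (MvPolynomial (Fin n × Fin (d + 1)) k) ((Ls ++ Ms).map (gen k n (d + 1))) ∧
    (Ideal.ofList ((Ls ++ Ms).map (gen k n (d + 1)))).IsPrime := by
  classical
  obtain ⟨h1, h2⟩ := transport d Ls hreg hpr
  obtain ⟨h3, h4⟩ := add_matching d hd Ls Ms hne hcl hcl' h1 h2
  set F : Finset (Fin n) → MvPolynomial (Fin n × Fin (d + 1)) k :=
    fun A => if A ∈ Ms then last k n d A + lead k n d A else lead k n d A with hF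
  have hFL : Ls.map (lead k n d) ++ Ms.map (fun A => last k n d A + lead k n d A)
      = (Ls ++ Ms).map F := by
    rw [List.map_append]
    congr 1
    · apply List.map_congr_left
      intro A hA
      rw [hF]
      simp only
      rw [if_neg]
      intro hM
      exact hcl A hM A hA (Finset.Subset.refl A)
    · apply List.map_congr_left
      intro A hA
      rw [hF]
      simp only
      rw [if_pos hA]
  rw [hFL] at h3 h4
  -- the weights
  obtain ⟨K, hK⟩ : ∃ K : ℕ, ∀ i, 0 ≤ (K : ℤ) + v i := by
    refine ⟨∑ i, (v i).natAbs, fun i => ?_⟩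
    have : (v i).natAbs ≤ ∑ i, (v i).natAbs :=
      Finset.single_le_sum (f := fun i => (v i).natAbs) (fun _ _ => Nat.zero_le _) (Finset.mem_univ i)
    omega
  have hsum : ∀ A : Finset (Fin n), ((∑ i ∈ A, ((K : ℤ) + v i).toNat : ℕ) : ℤ)
      = (A.card * K : ℕ) + ∑ i ∈ A, v i := by
    intro A
    rw [Nat.cast_sum]
    have : ∀ i ∈ A, ((((K : ℤ) + v i).toNat : ℕ) : ℤ) = K + v i :=
      fun i _ => Int.toNat_of_nonneg (hK i)
    rw [Finset.sum_congr rfl this, Finset.sum_add_distrib, Finset.sum_const]
    simp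
  have hLead : ∀ A ∈ Ls ++ Ms, Lead (weightedHomogeneousSubmodule k (wtv n d K v)) (A.card * K)
      (F A) (gen k n (d + 1) A) := by
    intro A hA
    by_cases hM : A ∈ Ms
    · have hFA : F A = last k n d A + lead k n d A := if_pos hM
      have h5 := hsum A
      rw [hvM A hM, add_zero] at h5
      have h6 : ∑ i ∈ A, ((K : ℤ) + v i).toNat = A.card * K := by exact_mod_cast h5
      have h7 := last_homog' (k := k) d K v A
      rw [h6] at h7
      refine ⟨?_, ?_⟩
      · rw [hFA]
        exact Submodule.add_mem _ h7 (lead_homog' d K v A)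
      · rw [gen_succ, hFA, sub_self]
        exact low_zero _ _
    · have hL : A ∈ Ls := by
        rw [List.mem_append] at hA
        exact hA.resolve_right hM
      have hFA : F A = lead k n d A := if_neg hM
      refine ⟨?_, ?_⟩
      · rw [hFA]
        exact lead_homog' d K v A
      · rw [gen_succ, hFA, add_sub_cancel_right]
        apply (low_of_mem _ (last_homog' (k := k) d K v A)).mono
        have h5 := hsum A
        have h6 := hvL A hL
        omega
  refine ⟨?_, ?_⟩
  · exact (degenerate (weightedHomogeneousSubmodule k (wtv n d K v)) (fun A => A.card * K) F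
      (gen k n (d + 1)) (Ls ++ Ms) hLead h3).1
  · exact prime_of_lead (weightedHomogeneousSubmodule k (wtv n d K v)) (fun A => A.card * K) F
      (gen k n (d + 1)) (Ls ++ Ms) hLead h3 h4

end lss

/-! ### Normalising the weights -/

section weights

variable {n : ℕ}

lemma int_weights (Ls Ms : List (Finset (Fin n))) (hne : ∀ A ∈ Ms, A.Nonempty)
    (hdis : ∀ A ∈ Ms, ∀ B ∈ Ms, A ≠ B → Disjoint A B) (w : Fin n → ℝ)
    (hM : ∀ A ∈ Ms, 0 < ∑ i ∈ A, w i) (hL : ∀ A ∈ Ls, ∑ i ∈ A, w i < 0) :
    ∃ v : Fin n → ℤ, (∀ A ∈ Ms, ∑ i ∈ A, v i = 0) ∧ (∀ A ∈ Ls, ∑ i ∈ A, v i < 0) := by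
  classical
  -- a large multiple
  obtain ⟨N, hN1, hN⟩ : ∃ N : ℕ, 1 ≤ N ∧ ∀ A ∈ Ms, (n : ℝ) ≤ N * ∑ i ∈ A, w i := by
    clear hdis hne hL
    induction Ms with
    | nil => exact ⟨1, le_refl 1, by simp⟩
    | cons A Ms ih =>
      obtain ⟨N, hN1, hN⟩ := ih (fun B hB => hM B (by simp [hB]))
      have hA := hM A (by simp)
      obtain ⟨N', hN'⟩ := exists_nat_ge ((n : ℝ) / ∑ i ∈ A, w i)
      rw [div_le_iff₀ hA] at hN'
      refine ⟨max N N', hN1.trans (le_max_left _ _), ?_⟩
      intro B hB
      rw [List.mem_cons] at hB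
      rcases hB with rfl | hB
      · refine hN'.trans (mul_le_mul_of_nonneg_right ?_ hA.le)
        exact_mod_cast le_max_right _ _
      · refine (hN B hB).trans (mul_le_mul_of_nonneg_right ?_ (hM B (by simp [hB])).le)
        exact_mod_cast le_max_left _ _
  set v0 : Fin n → ℤ := fun i => ⌊(N : ℝ) * w i⌋ with hv0
  have hM0 : ∀ A ∈ Ms, 0 ≤ ∑ i ∈ A, v0 i := by
    intro A hA
    have h1 : (N : ℝ) * ∑ i ∈ A, w i - A.card ≤ ((∑ i ∈ A, v0 i : ℤ) : ℝ) := by
      push_cast
      have : (N : ℝ) * ∑ i ∈ A, w i - A.card = ∑ i ∈ A, ((N : ℝ) * w i - 1) := by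
        rw [Finset.sum_sub_distrib, Finset.mul_sum]; simp
      rw [this]
      apply Finset.sum_le_sum
      intro i _
      exact (Int.sub_one_lt_floor _).le
    have h2 : (A.card : ℝ) ≤ n := by
      exact_mod_cast (Finset.card_le_univ A).trans_eq (Fintype.card_fin n)
    have h3 := hN A hA
    have h4 : (0 : ℝ) ≤ ((∑ i ∈ A, v0 i : ℤ) : ℝ) := by linarith
    exact_mod_cast h4
  have hL0 : ∀ A ∈ Ls, ∑ i ∈ A, v0 i < 0 := by
    intro A hA
    have h1 : ((∑ i ∈ A, v0 i : ℤ) : ℝ) ≤ (N : ℝ) * ∑ i ∈ A, w i := by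
      push_cast
      rw [Finset.mul_sum]
      apply Finset.sum_le_sum
      intro i _
      exact Int.floor_le _
    have h2 : (N : ℝ) * ∑ i ∈ A, w i < 0 := by
      apply mul_neg_of_pos_of_neg _ (hL A hA)
      exact_mod_cast hN1
    have h4 : ((∑ i ∈ A, v0 i : ℤ) : ℝ) < 0 := by linarith
    exact_mod_cast h4
  -- normalise
  obtain ⟨a, ha⟩ : ∃ a : Finset (Fin n) → Option (Fin n), ∀ A ∈ Ms, ∃ x ∈ A, a A = some x := by
    refine ⟨fun A => if h : A.Nonempty then some h.choose else none, fun A hA => ?_⟩
    have h := hne A hA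
    exact ⟨h.choose, h.choose_spec, dif_pos h⟩
  set v : Fin n → ℤ := fun i => v0 i - ∑ A ∈ Ms.toFinset, if a A = some i then ∑ j ∈ A, v0 j else 0
    with hv
  have hvsum : ∀ B : Finset (Fin n), ∑ i ∈ B, v i = ∑ i ∈ B, v0 i
      - ∑ A ∈ Ms.toFinset, ∑ i ∈ B, if a A = some i then ∑ j ∈ A, v0 j else 0 := by
    intro B
    rw [hv, Finset.sum_sub_distrib, Finset.sum_comm]
  refine ⟨v, ?_, ?_⟩
  · intro B hB
    rw [hvsum, Finset.sum_eq_single B]
    · obtain ⟨x, hx, hax⟩ := ha B hB
      have h1 : ∑ i ∈ B, (if a B = some i then ∑ j ∈ B, v0 j else 0) = ∑ j ∈ B, v0 j := by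
        rw [Finset.sum_eq_single x]
        · rw [if_pos hax]
        · intro y _ hy
          rw [if_neg]
          rw [hax]
          intro h
          exact hy (Option.some.inj h).symm
        · intro h
          exact absurd hx h
      rw [h1, sub_self]
    · intro A hA hAB
      rw [List.mem_toFinset] at hA
      obtain ⟨x, hx, hax⟩ := ha A hA
      apply Finset.sum_eq_zero
      intro i hi
      rw [if_neg]
      rw [hax]
      intro h
      have hxi : x = i := Option.some.inj h
      subst hxi
      exact Finset.disjoint_left.mp (hdis A hA B hB hAB) hx hi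
    · intro h
      rw [List.mem_toFinset] at h
      exact absurd hB h
  · intro B hB
    rw [hvsum]
    have h1 : 0 ≤ ∑ A ∈ Ms.toFinset, ∑ i ∈ B, if a A = some i then ∑ j ∈ A, v0 j else 0 := by
      apply Finset.sum_nonneg
      intro A hA
      rw [List.mem_toFinset] at hA
      apply Finset.sum_nonneg
      intro i _
      split_ifs
      · exact hM0 A hA
      · exact le_refl 0
    have h2 := hL0 B hB
    omega

end weights

/-! ### Positive matching decompositions -/

section pmd

/-- `M` is a positive matching of the hypergraph with edge set `E`. -/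
def IsPositiveMatching {n : ℕ} (M E : Finset (Finset (Fin n))) : Prop :=
  M ⊆ E ∧ (∀ A ∈ M, ∀ B ∈ M, A ≠ B → Disjoint A B) ∧
    ∃ w : Fin n → ℝ, (∀ A ∈ M, 0 < ∑ i ∈ A, w i) ∧ ∀ A ∈ E \ M, ∑ i ∈ A, w i < 0

/-- `[E₁, …, E_p]` is a positive matching decomposition of the hypergraph with edge set `E`:
`E₁` is a positive matching of `E`, `E₂` is a positive matching of `E ∖ E₁`, and so on, and
`E ∖ (E₁ ∪ … ∪ E_p)` is empty. -/
def IsPMD {n : ℕ} : List (Finset (Finset (Fin n))) → Finset (Finset (Fin n)) → Prop
  | [], E => E = ∅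
  | M :: rest, E => IsPositiveMatching M E ∧ IsPMD rest (E \ M)

/-- The least number of parts of a positive matching decomposition. -/
noncomputable def pmd {n : ℕ} (E : Finset (Finset (Fin n))) : ℕ :=
  sInf {p | ∃ L : List (Finset (Finset (Fin n))), L.length = p ∧ IsPMD L E}

variable {n : ℕ}

lemma clutter_sub {E E' : Finset (Finset (Fin n))} (hE : IsClutter E) (h : E' ⊆ E) :
    IsClutter E' :=
  ⟨fun A hA => hE.1 A (h hA), fun A hA B hB => hE.2 A (h hA) B (h hB)⟩

lemma singleton_pm {E : Finset (Finset (Fin n))} (hE : IsClutter E) (A : Finset (Fin n))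
    (hA : A ∈ E) : IsPositiveMatching {A} E := by
  classical
  refine ⟨by simpa using hA, ?_, ?_⟩
  · intro B hB B' hB' h
    rw [Finset.mem_singleton] at hB hB'
    exact absurd (hB.trans hB'.symm) h
  · refine ⟨fun i => if i ∈ A then 1 else -(n + 1 : ℝ), ?_, ?_⟩
    · intro B hB
      rw [Finset.mem_singleton] at hB
      subst hB
      rw [Finset.sum_congr rfl (fun i hi => if_pos hi)]
      simp only [Finset.sum_const, nsmul_eq_mul, mul_one, Nat.cast_pos]
      exact Finset.card_pos.mpr (hE.1 B hA)
    · intro B hB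
      rw [Finset.mem_sdiff, Finset.mem_singleton] at hB
      obtain ⟨i, hiB, hiA⟩ := Finset.not_subset.mp (fun h => hB.2 (hE.2 B hB.1 A hA h))
      rw [← Finset.add_sum_erase _ _ hiB, if_neg hiA]
      have h1 : ∑ x ∈ B.erase i, (if x ∈ A then (1 : ℝ) else -(n + 1 : ℝ)) ≤ (B.erase i).card := by
        have : ((B.erase i).card : ℝ) = ∑ x ∈ B.erase i, (1 : ℝ) := by simp
        rw [this]
        apply Finset.sum_le_sum
        intro x _
        have hn : (0 : ℝ) ≤ n := Nat.cast_nonneg n
        split_ifs
        · exact le_refl _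
        · linarith
      have h2 : ((B.erase i).card : ℝ) ≤ n := by
        exact_mod_cast (Finset.card_le_univ _).trans_eq (Fintype.card_fin n)
      linarith

lemma exists_pmd (m : ℕ) : ∀ E : Finset (Finset (Fin n)), E.card = m → IsClutter E →
    ∃ L, IsPMD L E := by
  classical
  induction m with
  | zero =>
    intro E hE _
    exact ⟨[], Finset.card_eq_zero.mp hE⟩
  | succ m ih =>
    intro E hE hc
    obtain ⟨A, hA⟩ := Finset.card_pos.mp (by omega : 0 < E.card)
    obtain ⟨L, hL⟩ := ih (E \ {A}) (by
      rw [Finset.card_sdiff_of_subset (by simpa using hA), Finset.card_singleton]; omega)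
      (clutter_sub hc Finset.sdiff_subset)
    exact ⟨{A} :: L, singleton_pm hc A hA, hL⟩

theorem main (k : Type*) [Field k] (L : List (Finset (Finset (Fin n)))) :
    ∀ E : Finset (Finset (Fin n)), IsClutter E → IsPMD L E → ∀ d : ℕ, L.length + 1 ≤ d →
      ∃ Ls : List (Finset (Fin n)), (∀ A, A ∈ Ls ↔ A ∈ E) ∧
        IsWeaklyRegular (MvPolynomial (Fin n × Fin d) k) (Ls.map (gen k n d)) ∧
        (Ideal.ofList (Ls.map (gen k n d))).IsPrime := by
  classical
  induction L with
  | nil =>
    intro E _ hE d _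
    have hE' : E = ∅ := hE
    subst hE'
    refine ⟨[], by simp, IsWeaklyRegular.nil _ _, ?_⟩
    rw [List.map_nil, Ideal.ofList_nil]
    exact Ideal.isPrime_bot
  | cons M rest ih =>
    intro E hcl hE d hd
    obtain ⟨⟨hME, hdis, w, hwM, hwE⟩, hrest⟩ := hE
    rw [List.length_cons] at hd
    obtain ⟨d', rfl⟩ : ∃ d', d = d' + 1 := ⟨d - 1, by omega⟩
    obtain ⟨Ls, hLs, hreg, hpr⟩ := ih (E \ M) (clutter_sub hcl Finset.sdiff_subset) hrest d'
      (by omega)
    obtain ⟨v, hvM, hvL⟩ := int_weights Ls M.toList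
      (fun A hA => hcl.1 A (hME (Finset.mem_toList.mp hA)))
      (fun A hA B hB h => hdis A (Finset.mem_toList.mp hA) B (Finset.mem_toList.mp hB) h) w
      (fun A hA => hwM A (Finset.mem_toList.mp hA))
      (fun A hA => hwE A ((hLs A).mp hA))
    have hmem : ∀ A, A ∈ Ls ++ M.toList ↔ A ∈ E := by
      intro A
      rw [List.mem_append, Finset.mem_toList, hLs, Finset.mem_sdiff]
      constructor
      · rintro (h | h)
        · exact h.1
        · exact hME h
      · intro h
        by_cases hM : A ∈ M
        · right; exact hM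
        · left; exact ⟨h, hM⟩
    refine ⟨Ls ++ M.toList, hmem, ?_⟩
    apply step d' (by omega) Ls M.toList v
    · intro A hA
      exact hcl.1 A ((hmem A).mp hA)
    · intro A hA B hB hBA
      have hA' := Finset.mem_toList.mp hA
      have hB' := Finset.mem_sdiff.mp ((hLs B).mp hB)
      have := hcl.2 B hB'.1 A (hME hA') hBA
      exact hB'.2 (this ▸ hA')
    · have hnd := Finset.nodup_toList M
      refine List.Pairwise.imp_of_mem ?_ hnd
      intro A B hA hB hAB
      exact hdis A (Finset.mem_toList.mp hA) B (Finset.mem_toList.mp hB) hAB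
    · exact hvM
    · exact hvL
    · exact hreg
    · exact hpr

/-- **Hypergraph LSS ideals are prime above the positive matching decomposition number.** -/
theorem result (k : Type*) [Field k] (n : ℕ) (E : Finset (Finset (Fin n))) (hE : IsClutter E)
    (d : ℕ) (hd : pmd E + 1 ≤ d) : (LSS k E d).IsPrime := by
  have hne : {p | ∃ L : List (Finset (Finset (Fin n))), L.length = p ∧ IsPMD L E}.Nonempty := by
    obtain ⟨L, hL⟩ := exists_pmd _ E rfl hE
    exact ⟨L.length, L, rfl, hL⟩
  obtain ⟨L, hlen, hL⟩ := Nat.sInf_mem hne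
  have hd' : L.length + 1 ≤ d := by
    rw [hlen]
    exact hd
  obtain ⟨Ls, hmem, -, hpr⟩ := main k L E hE hL d hd'
  have : LSS k E d = Ideal.ofList (Ls.map (gen k n d)) := by
    unfold LSS
    congr 1
    ext f
    simp only [Set.mem_ofPred_eq, List.mem_map]
    constructor
    · rintro ⟨A, hA, rfl⟩; exact ⟨A, (hmem A).mpr hA, rfl⟩
    · rintro ⟨A, hA, rfl⟩; exact ⟨A, (hmem A).mp hA, rfl⟩
  rw [this]
  exact hpr

end pmd

end Pool.Agent.Results.MP_c79496_ag.PrimeAbovePmd
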